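import Mathlib

set_option autoImplicit false

/-!
An infinite-dimensional uniformly convex Banach space `X` and a five point metric space which embeds
almost isometrically but not isometrically into `X`.
-/

namespace Pool.Agent.Results.MP_6d826c_an.NotIsometric

open Filter Topology

/-- `X` is uniformly convex. -/
def IsUniformlyConvex (X : Type) [NormedAddCommGroup X] [NormedSpace ℝ X] : Prop :=
  ∀ ε : ℝ, 0 < ε → ε ≤ 2 → ∃ δ : ℝ, 0 < δ ∧ ∀ x y : X, ‖x‖ ≤ 1 → ‖y‖ ≤ 1 → ε ≤ ‖x - y‖ →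
    ‖(1 / 2 : ℝ) • (x + y)‖ ≤ 1 - δ

/-- `M` embeds isometrically into `X`. -/
def EmbedsIsometrically (M X : Type) [MetricSpace M] [NormedAddCommGroup X] : Prop :=
  ∃ f : M → X, ∀ a b : M, ‖f a - f b‖ = dist a b

/-- `M` embeds almost isometrically into `X`. -/
def EmbedsAlmostIsometrically (M X : Type) [MetricSpace M] [NormedAddCommGroup X] : Prop :=
  ∀ ε : ℝ, 0 < ε → ∃ f : M → X, ∀ a b : M,
    dist a b ≤ ‖f a - f b‖ ∧ ‖f a - f b‖ ≤ (1 + ε) * dist a b

/-- The numbers `θ_n`, increasing to `1/8`. -/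
noncomputable def θ (n : ℕ) : ℝ := n / (8 * (n + 1))

lemma θ_nonneg (n : ℕ) : 0 ≤ θ n := by unfold θ; positivity

lemma θ_lt (n : ℕ) : θ n < 1 / 8 := by
  unfold θ
  rw [div_lt_div_iff₀ (by positivity) (by norm_num)]
  linarith

/-- The planes. -/
def Blk (_ : ℕ) : Type := ℝ × ℝ

instance (n : ℕ) : AddCommGroup (Blk n) := inferInstanceAs (AddCommGroup (ℝ × ℝ))
instance (n : ℕ) : Module ℝ (Blk n) := inferInstanceAs (Module ℝ (ℝ × ℝ))
instance (n : ℕ) : FiniteDimensional ℝ (Blk n) := inferInstanceAs (FiniteDimensional ℝ (ℝ × ℝ))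

/-- The square of the norm on the plane. -/
def Q (t : ℝ) (v : ℝ × ℝ) : ℝ := v.1 ^ 2 + v.2 ^ 2 + 2 * t * |v.1| * |v.2|

lemma Q_nonneg {t : ℝ} (ht : 0 ≤ t) (v : ℝ × ℝ) : 0 ≤ Q t v := by unfold Q; positivity

lemma Q_add_le {t : ℝ} (ht : 0 ≤ t) (ht1 : t ≤ 1) (v w : ℝ × ℝ) :
    Real.sqrt (Q t (v + w)) ≤ Real.sqrt (Q t v) + Real.sqrt (Q t w) := by
  set B : ℝ := t * (|v.1| + |v.2|) * (|w.1| + |w.2|) + (1 - t) * (|v.1| * |w.1| + |v.2| * |w.2|)
    with hB
  have h1 : B ≤ Real.sqrt (Q t v) * Real.sqrt (Q t w) := by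
    rw [← Real.sqrt_mul (Q_nonneg ht v)]
    apply Real.le_sqrt_of_sq_le
    have e1 : Q t v = t * (|v.1| + |v.2|) ^ 2 + (1 - t) * (|v.1| ^ 2 + |v.2| ^ 2) := by
      rw [Q, sq_abs, sq_abs]
      have := sq_abs v.1
      have := sq_abs v.2
      nlinarith
    have e2 : Q t w = t * (|w.1| + |w.2|) ^ 2 + (1 - t) * (|w.1| ^ 2 + |w.2| ^ 2) := by
      rw [Q, sq_abs, sq_abs]
      have := sq_abs w.1
      have := sq_abs w.2
      nlinarith
    have h1t : 0 ≤ 1 - t := sub_nonneg.2 ht1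
    have e3 : Q t v * Q t w - B ^ 2 = t * (1 - t) * ((|v.1| + |v.2|) * |w.1| -
        (|w.1| + |w.2|) * |v.1|) ^ 2 + t * (1 - t) * ((|v.1| + |v.2|) * |w.2| -
        (|w.1| + |w.2|) * |v.2|) ^ 2 + (1 - t) ^ 2 * (|v.1| * |w.2| - |v.2| * |w.1|) ^ 2 := by
      rw [e1, e2, hB]; ring
    have e4 : 0 ≤ Q t v * Q t w - B ^ 2 := by rw [e3]; positivity
    linarith
  have h2 : Q t (v + w) ≤ Q t v + Q t w + 2 * B := by
    have a1 : |v.1 + w.1| ≤ |v.1| + |w.1| := abs_add_le _ _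
    have a2 : |v.2 + w.2| ≤ |v.2| + |w.2| := abs_add_le _ _
    have a3 : |v.1 + w.1| * |v.2 + w.2| ≤ (|v.1| + |w.1|) * (|v.2| + |w.2|) :=
      mul_le_mul a1 a2 (abs_nonneg _) (by positivity)
    have a4 : v.1 * w.1 ≤ |v.1| * |w.1| := by rw [← abs_mul]; exact le_abs_self _
    have a5 : v.2 * w.2 ≤ |v.2| * |w.2| := by rw [← abs_mul]; exact le_abs_self _
    have a6 := mul_le_mul_of_nonneg_left a3 ht
    simp only [Q, Prod.fst_add, Prod.snd_add, hB]
    nlinarith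
  apply Real.sqrt_le_iff.2
  refine ⟨by positivity, ?_⟩
  rw [add_sq, Real.sq_sqrt (Q_nonneg ht v), Real.sq_sqrt (Q_nonneg ht w)]
  linarith

/-- The norm of the plane. -/
noncomputable instance (n : ℕ) : NormedAddCommGroup (Blk n) :=
  AddGroupNorm.toNormedAddCommGroup
    { toFun := fun v => Real.sqrt (Q (θ n) v)
      map_zero' := by
        change Real.sqrt (Q (θ n) (0, 0)) = 0
        simp [Q]
      add_le' := fun v w => Q_add_le (θ_nonneg n) (by linarith [θ_lt n]) v w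
      neg' := fun v => by
        change Real.sqrt (Q (θ n) (-v.1, -v.2)) = Real.sqrt (Q (θ n) v)
        simp [Q]
      eq_zero_of_map_eq_zero' := fun v hv => by
        have h1 : Q (θ n) v = 0 := (Real.sqrt_eq_zero (Q_nonneg (θ_nonneg n) v)).1 hv
        have h2 : v.1 ^ 2 + v.2 ^ 2 + 2 * θ n * |v.1| * |v.2| = 0 := h1
        have h3 : 0 ≤ 2 * θ n * |v.1| * |v.2| := by have := θ_nonneg n; positivity
        have h4 : v.1 = 0 := by nlinarith [sq_nonneg v.1, sq_nonneg v.2]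
        have h5 : v.2 = 0 := by nlinarith [sq_nonneg v.1, sq_nonneg v.2]
        exact Prod.ext h4 h5 }

lemma norm_blk (n : ℕ) (v : Blk n) : ‖v‖ = Real.sqrt (Q (θ n) v) := rfl

lemma norm_blk_sq (n : ℕ) (v : Blk n) : ‖v‖ ^ 2 = Q (θ n) v :=
  Real.sq_sqrt (Q_nonneg (θ_nonneg n) v)

noncomputable instance (n : ℕ) : NormedSpace ℝ (Blk n) where
  norm_smul_le c v := by
    rw [norm_blk, norm_blk]
    have : Q (θ n) (c • v) = c ^ 2 * Q (θ n) v := by
      change (c * v.1) ^ 2 + (c * v.2) ^ 2 + 2 * θ n * |c * v.1| * |c * v.2| =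
        c ^ 2 * (v.1 ^ 2 + v.2 ^ 2 + 2 * θ n * |v.1| * |v.2|)
      rw [abs_mul, abs_mul]
      have := sq_abs c
      linear_combination (2 * θ n * |v.1| * |v.2|) * this
    rw [this, Real.sqrt_mul (sq_nonneg c), Real.sqrt_sq_eq_abs]
    rfl

instance (n : ℕ) : CompleteSpace (Blk n) := FiniteDimensional.complete ℝ (Blk n)

/-- The `ℓ_2`-sum of the planes. -/
abbrev X : Type := lp Blk 2

lemma summable_X (x : X) : Summable fun n => ‖x n‖ ^ 2 := by
  have := (lp.memℓp x).summable (by norm_num)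
  simpa using this

lemma norm_X_sq (x : X) : ‖x‖ ^ 2 = ∑' n, ‖x n‖ ^ 2 := by
  have := lp.norm_rpow_eq_tsum (p := 2) (by norm_num) x
  simpa using this

/-- The pointwise inequality behind the uniform convexity. -/
lemma Q_convex {t : ℝ} (ht : 0 ≤ t) (ht1 : t ≤ 1 / 8) (v w : ℝ × ℝ) :
    Q t (v + w) + 1 / 2 * Q t (v - w) ≤ 2 * Q t v + 2 * Q t w := by
  obtain ⟨a, b⟩ := v
  obtain ⟨c, d⟩ := w
  simp only [Q, Prod.mk_add_mk, Prod.mk_sub_mk]
  have a1 : |a + c| ≤ |a| + |c| := abs_add_le _ _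
  have a2 : |b + d| ≤ |b| + |d| := abs_add_le _ _
  have a3 : |a + c| * |b + d| ≤ (|a| + |c|) * (|b| + |d|) :=
    mul_le_mul a1 a2 (abs_nonneg _) (by positivity)
  have a4 : 2 * (|a - c| * |b - d|) ≤ (a - c) ^ 2 + (b - d) ^ 2 := by
    rw [← sq_abs (a - c), ← sq_abs (b - d)]
    nlinarith [sq_nonneg (|a - c| - |b - d|)]
  have a5 : (|a| - |c|) ^ 2 ≤ (a - c) ^ 2 := sq_le_sq.2 (abs_abs_sub_abs_le_abs_sub a c)
  have a6 : (|b| - |d|) ^ 2 ≤ (b - d) ^ 2 := sq_le_sq.2 (abs_abs_sub_abs_le_abs_sub b d)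
  have a7 : -2 * ((|a| - |c|) * (|b| - |d|)) ≤ (a - c) ^ 2 + (b - d) ^ 2 := by
    nlinarith [sq_nonneg ((|a| - |c|) + (|b| - |d|))]
  have b1 := mul_le_mul_of_nonneg_left a3 ht
  have b2 := mul_le_mul_of_nonneg_left a4 ht
  have b3 := mul_le_mul_of_nonneg_left a7 ht
  have b4 : t * ((a - c) ^ 2 + (b - d) ^ 2) ≤ 1 / 8 * ((a - c) ^ 2 + (b - d) ^ 2) :=
    mul_le_mul_of_nonneg_right ht1 (by positivity)
  have b5 : 0 ≤ (a - c) ^ 2 + (b - d) ^ 2 := by positivity
  nlinarith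

/-- `‖x+y‖² + ½ ‖x-y‖² ≤ 2‖x‖² + 2‖y‖²`. -/
lemma convexity (x y : X) : ‖x + y‖ ^ 2 + 1 / 2 * ‖x - y‖ ^ 2 ≤ 2 * ‖x‖ ^ 2 + 2 * ‖y‖ ^ 2 := by
  rw [norm_X_sq, norm_X_sq, norm_X_sq, norm_X_sq, ← tsum_mul_left, ← tsum_mul_left,
    ← tsum_mul_left, ← Summable.tsum_add (summable_X _) ((summable_X _).mul_left _),
    ← Summable.tsum_add ((summable_X _).mul_left _) ((summable_X _).mul_left _)]
  refine Summable.tsum_le_tsum (fun n => ?_) ((summable_X _).add ((summable_X _).mul_left _))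
    (((summable_X _).mul_left _).add ((summable_X _).mul_left _))
  rw [norm_blk_sq, norm_blk_sq, norm_blk_sq, norm_blk_sq]
  exact Q_convex (θ_nonneg n) (θ_lt n).le (x n) (y n)

/-- The square of the Euclidean norm on the plane. -/
def S (v : ℝ × ℝ) : ℝ := v.1 ^ 2 + v.2 ^ 2

lemma Q_parallelogram {t : ℝ} (ht : 0 ≤ t) (v w : ℝ × ℝ) :
    Q t (v + w) + Q t (v - w) ≤ 2 * (1 + t) * (S v + S w) := by
  obtain ⟨a, b⟩ := v
  obtain ⟨c, d⟩ := w
  simp only [Q, S, Prod.mk_add_mk, Prod.mk_sub_mk]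
  have a3 : 2 * (|a + c| * |b + d|) ≤ (a + c) ^ 2 + (b + d) ^ 2 := by
    rw [← sq_abs (a + c), ← sq_abs (b + d)]
    nlinarith [sq_nonneg (|a + c| - |b + d|)]
  have a4 : 2 * (|a - c| * |b - d|) ≤ (a - c) ^ 2 + (b - d) ^ 2 := by
    rw [← sq_abs (a - c), ← sq_abs (b - d)]
    nlinarith [sq_nonneg (|a - c| - |b - d|)]
  have b1 := mul_le_mul_of_nonneg_left a3 ht
  have b2 := mul_le_mul_of_nonneg_left a4 ht
  nlinarith

lemma S_le_Q {t : ℝ} (ht : 0 ≤ t) (v : ℝ × ℝ) : S v ≤ Q t v := by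
  unfold S Q
  have : 0 ≤ 2 * t * |v.1| * |v.2| := by positivity
  linarith

/-- The strict inequality. -/
lemma strict (u v : X) (hu : u ≠ 0) :
    ‖u + v‖ ^ 2 + ‖u - v‖ ^ 2 < 9 / 4 * (‖u‖ ^ 2 + ‖v‖ ^ 2) := by
  obtain ⟨n, hn⟩ : ∃ n, u n ≠ 0 := by
    by_contra hcon
    push Not at hcon
    exact hu (lp.ext (funext hcon))
  rw [norm_X_sq, norm_X_sq, norm_X_sq, norm_X_sq, ← Summable.tsum_add (summable_X _)
    (summable_X _), ← Summable.tsum_add (summable_X _) (summable_X _), ← tsum_mul_left]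
  have key : ∀ k, ‖(u + v) k‖ ^ 2 + ‖(u - v) k‖ ^ 2 ≤ 2 * (1 + θ k) * (S (u k) + S (v k)) := by
    intro k
    rw [norm_blk_sq, norm_blk_sq]
    exact Q_parallelogram (θ_nonneg k) (u k) (v k)
  have hS : ∀ (x : X) k, S (x k) ≤ ‖x k‖ ^ 2 := fun x k => by
    rw [norm_blk_sq]; exact S_le_Q (θ_nonneg k) _
  have hS0 : ∀ (x : X) k, 0 ≤ S (x k) := fun x k => by unfold S; positivity
  refine Summable.tsum_lt_tsum (i := n) (fun k => ?_) ?_ ((summable_X _).add (summable_X _))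
    (((summable_X _).add (summable_X _)).mul_left _)
  · have h1 := key k
    have h2 := hS u k
    have h3 := hS v k
    have h4 := hS0 u k
    have h5 := hS0 v k
    have h6 := θ_lt k
    have h7 : 2 * (1 + θ k) * (S (u k) + S (v k)) ≤ 9 / 4 * (S (u k) + S (v k)) :=
      mul_le_mul_of_nonneg_right (by linarith) (by linarith)
    linarith
  · have h1 := key n
    have h2 := hS u n
    have h3 := hS v n
    have h4 : 0 < S (u n) := by
      rcases (hS0 u n).eq_or_lt with h | h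
      · exfalso
        apply hn
        have e : (u n).1 ^ 2 + (u n).2 ^ 2 = 0 := h.symm
        have e1 : (u n).1 = 0 := by nlinarith [sq_nonneg (u n).1, sq_nonneg (u n).2]
        have e2 : (u n).2 = 0 := by nlinarith [sq_nonneg (u n).1, sq_nonneg (u n).2]
        exact Prod.ext e1 e2
      · exact h
    have h5 := hS0 v n
    have h6 := θ_lt n
    have h7 : 2 * (1 + θ n) * (S (u n) + S (v n)) < 9 / 4 * (S (u n) + S (v n)) :=
      mul_lt_mul_of_pos_right (by linarith) (by linarith)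
    linarith

/-- The distances of the five point space, `0`, `a`, `-a`, `b`, `-b` in this order. -/
def D : Fin 5 → Fin 5 → ℚ := ![![0, 1, 1, 1, 1], ![1, 0, 2, 3 / 2, 3 / 2], ![1, 2, 0, 3 / 2, 3 / 2],
  ![1, 3 / 2, 3 / 2, 0, 2], ![1, 3 / 2, 3 / 2, 2, 0]]

/-- The five points. -/
def M : Type := Fin 5

instance : Fintype M := inferInstanceAs (Fintype (Fin 5))

lemma D_triangle : ∀ i j k : Fin 5, D i k ≤ D i j + D j k := by decide +kernel

lemma D_comm : ∀ i j : Fin 5, D i j = D j i := by decide +kernel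

lemma D_eq : ∀ i j : Fin 5, D i j = 0 → i = j := by decide +kernel

lemma D_self : ∀ i : Fin 5, D i i = 0 := by decide +kernel

noncomputable instance : MetricSpace M where
  dist i j := (D i j : ℚ)
  dist_self i := by exact_mod_cast D_self i
  dist_comm i j := by exact_mod_cast D_comm i j
  dist_triangle i j k := by exact_mod_cast D_triangle i j k
  eq_of_dist_eq_zero {i j} h := D_eq i j (by exact_mod_cast h)

lemma dist_M (i j : Fin 5) : dist (α := M) i j = (D i j : ℚ) := rfl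

lemma unif : IsUniformlyConvex X := by
  intro ε hε hε2
  refine ⟨ε ^ 2 / 32, by positivity, fun x y hx hy hxy => ?_⟩
  rw [norm_smul]
  have h := convexity x y
  have h1 : ‖x‖ ^ 2 ≤ 1 := pow_le_one₀ (norm_nonneg _) hx
  have h2 : ‖y‖ ^ 2 ≤ 1 := pow_le_one₀ (norm_nonneg _) hy
  have h3 : ε ^ 2 ≤ ‖x - y‖ ^ 2 := pow_le_pow_left₀ hε.le hxy 2
  have h4 : ‖x + y‖ ^ 2 ≤ 4 - ε ^ 2 / 2 := by linarith
  have h5 : ‖x + y‖ ≤ 2 - ε ^ 2 / 16 := by
    apply abs_le_of_sq_le_sq' _ _ |>.2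
    · nlinarith
    · nlinarith
  norm_num
  linarith

lemma not_embeds : ¬ EmbedsIsometrically M X := by
  rintro ⟨f, hf⟩
  have hd : ∀ i j : Fin 5, ‖f i - f j‖ = (D i j : ℚ) := hf
  set u := f (1 : Fin 5) - f (0 : Fin 5) with hu
  set u' := f (2 : Fin 5) - f (0 : Fin 5) with hu'
  set v := f (3 : Fin 5) - f (0 : Fin 5) with hv
  set v' := f (4 : Fin 5) - f (0 : Fin 5) with hv'
  have d1 : ‖u‖ = 1 := by rw [hu, hd]; simp [D]
  have d2 : ‖u'‖ = 1 := by rw [hu', hd]; simp [D]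
  have d3 : ‖v‖ = 1 := by rw [hv, hd]; simp [D]
  have d4 : ‖v'‖ = 1 := by rw [hv', hd]; simp [D]
  have d5 : ‖u - u'‖ = 2 := by
    have : u - u' = f (1 : Fin 5) - f (2 : Fin 5) := by rw [hu, hu']; abel
    rw [this, hd]; simp [D]
  have d6 : ‖v - v'‖ = 2 := by
    have : v - v' = f (3 : Fin 5) - f (4 : Fin 5) := by rw [hv, hv']; abel
    rw [this, hd]; simp [D]
  have d7 : ‖u - v‖ = 3 / 2 := by
    have : u - v = f (1 : Fin 5) - f (3 : Fin 5) := by rw [hu, hv]; abel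
    rw [this, hd]; simp [D]
  have d8 : ‖u - v'‖ = 3 / 2 := by
    have : u - v' = f (1 : Fin 5) - f (4 : Fin 5) := by rw [hu, hv']; abel
    rw [this, hd]; simp [D]
  -- strict convexity
  have anti : ∀ x y : X, ‖x‖ = 1 → ‖y‖ = 1 → ‖x - y‖ = 2 → y = -x := by
    intro x y hx hy hxy
    have h := convexity x (-y)
    rw [← sub_eq_add_neg, sub_neg_eq_add, norm_neg, hx, hy, hxy] at h
    have h2 : ‖x + y‖ ^ 2 ≤ 0 := by linarith
    have h3 : ‖x + y‖ = 0 := by nlinarith [norm_nonneg (x + y)]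
    rw [norm_eq_zero] at h3
    exact (neg_eq_of_add_eq_zero_right h3).symm
  have h2 : v' = -v := anti v v' d3 d4 d6
  rw [h2, sub_neg_eq_add] at d8
  have h3 := strict u v (by rw [← norm_ne_zero_iff, d1]; norm_num)
  rw [d1, d3, d7, d8] at h3
  norm_num at h3

lemma norm_single_sub (n : ℕ) (v w : Blk n) :
    ‖(lp.single 2 n v : X) - lp.single 2 n w‖ = ‖v - w‖ := by
  rw [← lp.single_sub, lp.norm_single (by norm_num)]

lemma almost_embeds : EmbedsAlmostIsometrically M X := by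
  intro ε hε
  -- `θ n` close to `1/8`
  have hlim : Tendsto (fun n => θ n) atTop (𝓝 (1 / 8)) := by
    have h1 : (fun n : ℕ => θ n) = fun n : ℕ => (1 / 8) * ((n : ℝ) / (n + 1)) := by
      funext n; unfold θ; field_simp
    rw [h1]
    have := tendsto_natCast_div_add_atTop (1 : ℝ)
    simpa using this.const_mul (1 / 8 : ℝ)
  have hlim2 : Tendsto (fun n => (3 / 2 : ℝ) / Real.sqrt (2 + 2 * θ n)) atTop (𝓝 1) := by
    have h2 : Tendsto (fun n => Real.sqrt (2 + 2 * θ n)) atTop (𝓝 (Real.sqrt (2 + 2 * (1 / 8)))) :=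
      (Real.continuous_sqrt.tendsto _).comp (tendsto_const_nhds.add (hlim.const_mul 2))
    have h3 : Real.sqrt (2 + 2 * (1 / 8)) = 3 / 2 := by
      rw [show (2 + 2 * (1 / 8) : ℝ) = (3 / 2) ^ 2 by norm_num]
      exact Real.sqrt_sq (by norm_num)
    rw [h3] at h2
    have := (tendsto_const_nhds (x := (3 / 2 : ℝ))).div h2 (by norm_num)
    rwa [div_self (by norm_num : (3 / 2 : ℝ) ≠ 0)] at this
  obtain ⟨n, hn⟩ := (hlim2.eventually (gt_mem_nhds (show (1 : ℝ) < 1 + ε by linarith))).exists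
  set s := Real.sqrt (2 + 2 * θ n) with hs
  have hs0 : 0 < s := Real.sqrt_pos.2 (by have := θ_nonneg n; positivity)
  have hs1 : s ≤ 3 / 2 := by
    rw [hs]
    apply Real.sqrt_le_iff.2
    refine ⟨by norm_num, ?_⟩
    have := θ_lt n
    linarith
  set c := (3 / 2 : ℝ) / s with hc
  have hc1 : 1 ≤ c := by rw [hc, le_div_iff₀ hs0]; linarith
  have hcs : c * s = 3 / 2 := by rw [hc]; field_simp
  let g : Fin 5 → ℝ × ℝ := ![(0, 0), (c, 0), (-c, 0), (0, c), (0, -c)]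
  let f : M → X := fun i => lp.single 2 n (g i)
  have hf : ∀ i j : Fin 5, ‖f i - f j‖ = Real.sqrt (Q (θ n) (g i - g j)) := by
    intro i j
    exact norm_single_sub n (g i) (g j)
  have hcs2 : c ^ 2 * (2 + 2 * θ n) = 9 / 4 := by
    have h1 : s ^ 2 = 2 + 2 * θ n := Real.sq_sqrt (by have := θ_nonneg n; positivity)
    rw [← h1, ← mul_pow, hcs]; norm_num
  have hc0 : 0 < c := by linarith
  have key : ∀ i j : Fin 5, Q (θ n) (g i - g j) =
      (if D i j = 3 / 2 then (3 / 2 : ℝ) else c * (D i j : ℚ)) ^ 2 := by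
    intro i j
    fin_cases i <;> fin_cases j <;> simp [g, D, Q]
    all_goals first
      | (intro h; norm_num at h)
      | (rw [if_neg (by norm_num)]; ring)
      | (rw [abs_of_pos hc0]; linear_combination hcs2)
  have hD0 : ∀ i j : Fin 5, 0 ≤ D i j := by decide +kernel
  suffices h : ∀ i j : Fin 5, ((D i j : ℚ) : ℝ) ≤ ‖f i - f j‖ ∧
      ‖f i - f j‖ ≤ (1 + ε) * ((D i j : ℚ) : ℝ) from ⟨f, h⟩
  intro i j
  have hD1 : (0 : ℝ) ≤ (D i j : ℚ) := by exact_mod_cast hD0 i j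
  rw [hf, key]
  split_ifs with h
  · have h2 : ((D i j : ℚ) : ℝ) = 3 / 2 := by rw [h]; norm_num
    rw [h2, Real.sqrt_sq (by norm_num)]
    exact ⟨le_rfl, by linarith⟩
  · rw [Real.sqrt_sq (by positivity)]
    exact ⟨by nlinarith, by nlinarith⟩

lemma infinite_dim : ¬ FiniteDimensional ℝ X := by
  intro hfd
  let e : ∀ n, Blk n := fun _ => ((1, 0) : ℝ × ℝ)
  have he : ∀ n, e n ≠ 0 := fun n h => by
    have : (1 : ℝ) = 0 := congrArg Prod.fst (show ((1, 0) : ℝ × ℝ) = (0, 0) from h)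
    norm_num at this
  have hli : LinearIndependent ℝ fun n : ℕ => (lp.single 2 n (e n) : X) := by
    rw [linearIndependent_iff']
    intro s g hg k hk
    have h1 : (∑ i ∈ s, g i • (lp.single 2 i (e i) : X)) k = 0 := by rw [hg]; rfl
    rw [lp.coeFn_sum, Finset.sum_apply, Finset.sum_eq_single k] at h1
    · rw [lp.coeFn_smul, Pi.smul_apply, lp.single_apply_self] at h1
      exact (smul_eq_zero.1 h1).resolve_right (he k)
    · intro i _ hik
      rw [lp.coeFn_smul, Pi.smul_apply, lp.single_apply_ne _ _ _ hik.symm, smul_zero]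
    · intro h; exact absurd hk h
  exact not_finite_iff_infinite.2 inferInstance hli.finite

/-- There are an infinite-dimensional uniformly convex real Banach space and a finite metric space
which embeds almost isometrically but not isometrically into it. -/
theorem result :
    ∃ (X : Type) (_ : NormedAddCommGroup X) (_ : NormedSpace ℝ X), CompleteSpace X ∧
      ¬ FiniteDimensional ℝ X ∧ IsUniformlyConvex X ∧
      ∃ (M : Type) (_ : MetricSpace M), Finite M ∧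
        EmbedsAlmostIsometrically M X ∧ ¬ EmbedsIsometrically M X :=
  ⟨X, inferInstance, inferInstance, inferInstance, infinite_dim, unif, M, inferInstance,
    Finite.of_fintype M, almost_embeds, not_embeds⟩

end Pool.Agent.Results.MP_6d826c_an.NotIsometric
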